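import Pool.Agent.U581.LB.StmJ

/-! Project LJ (helper581), package JMAIN (helper962): from sequences to uniform statements, adapted
from package MAINQ of helper750. -/

set_option autoImplicit false

namespace Pool.Agent.U962.LB

open Real MeasureTheory Filter Topology ProbabilityTheory Pool.Agent.U581.BM Pool.Agent.U581.LB
open scoped BoundedContinuousFunction NNReal

/-- Package JMAIN of project LJ. -/
theorem t_JMAIN (h : S_JSEQ) : S_JMAIN := by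
  intro c₁ c₂ K s hc₁ hs Ω _ P B hB F g l D hl hD ε hε
  by_contra hcon
  push Not at hcon
  have key : ∀ j : ℕ, ∃ (T ρ : ℝ) (M : ℕ) (μ : Measure ℝ), (j : ℝ) + 2 ≤ T ∧
      T ^ (-(1 / ((j : ℝ) + 1))) ≤ ρ ∧ ρ ≤ 1 / ((j : ℝ) + 2) ∧ j + 1 ≤ M ∧
      (M : ℝ) ≤ T ^ (1 / ((j : ℝ) + 1)) ∧ AdmL c₁ c₂ K s T μ ∧
      ε < |(∫ x, g (Pc (T * x) / √(T * x)) * F (pathR ρ M (T * x)) ∂μ) -
        (∫ x, g (Pc (T * x) / √(T * x)) ∂μ) * ∫ ω, F (bpath B ω) ∂P| := by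
    intro j
    obtain ⟨T, ρ, M, h1, h2, h3, h4, h5, μ, h6, h7⟩ :=
      hcon (1 / ((j : ℝ) + 2)) (1 / ((j : ℝ) + 1)) ((j : ℝ) + 2) (j + 1) (by positivity)
        (by positivity)
    exact ⟨T, ρ, M, μ, h1, h2, h3, h4, h5, h6, h7⟩
  choose T ρ M μ h1 h2 h3 h4 h5 h6 h7 using key
  have hT1 : ∀ j, 1 < T j := fun j => by
    have : (0 : ℝ) ≤ j := Nat.cast_nonneg j
    linarith [h1 j]
  have hρ : ∀ j, 0 < ρ j ∧ ρ j < 1 := fun j => by
    refine ⟨lt_of_lt_of_le (rpow_pos_of_pos (by linarith [hT1 j]) _) (h2 j), ?_⟩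
    refine lt_of_le_of_lt (h3 j) ?_
    have : (0 : ℝ) ≤ j := Nat.cast_nonneg j
    rw [div_lt_one (by positivity)]
    linarith
  have hTt : Tendsto T atTop atTop := by
    refine tendsto_atTop_mono (fun j => ?_) tendsto_natCast_atTop_atTop
    linarith [h1 j]
  have hρt : Tendsto ρ atTop (𝓝 0) := by
    refine squeeze_zero (fun j => (hρ j).1.le) (fun j => (h3 j).trans ?_)
      tendsto_one_div_add_atTop_nhds_zero_nat
    apply one_div_le_one_div_of_le (by positivity)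
    linarith
  have hMt : Tendsto M atTop atTop :=
    tendsto_atTop_mono (fun j => (Nat.le_succ j).trans (h4 j)) tendsto_id
  have hδ : ∀ δ : ℝ, 0 < δ → ∀ᶠ j in atTop, T j ^ (-δ) ≤ ρ j ∧ (M j : ℝ) ≤ T j ^ δ := by
    intro δ hδ
    have h8 : ∀ᶠ j : ℕ in atTop, 1 / ((j : ℝ) + 1) < δ :=
      (tendsto_one_div_add_atTop_nhds_zero_nat (𝕜 := ℝ)).eventually_lt_const hδ
    filter_upwards [h8] with j hj
    refine ⟨(rpow_le_rpow_of_exponent_le (hT1 j).le ?_).trans (h2 j),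
      (h5 j).trans (rpow_le_rpow_of_exponent_le (hT1 j).le hj.le)⟩
    linarith
  have hlim := h c₁ c₂ K s hc₁ hs T ρ M μ h6 hT1 hTt hρ hρt hMt hδ P B hB F g l D hl hD
  have h9 : ∀ᶠ j in atTop, |(∫ x, g (Pc (T j * x) / √(T j * x)) *
        F (pathR (ρ j) (M j) (T j * x)) ∂μ j) -
      (∫ x, g (Pc (T j * x) / √(T j * x)) ∂μ j) * ∫ ω, F (bpath B ω) ∂P| < ε := by
    have h10 := Metric.tendsto_nhds.1 hlim ε hε
    filter_upwards [h10] with j hj
    rwa [Real.dist_eq, sub_zero] at hj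
  obtain ⟨j, hj⟩ := h9.exists
  exact absurd (h7 j) (not_lt.2 hj.le)

end Pool.Agent.U962.LB
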